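import Pool.Agent.Work.MP_97dc52_al.Seq
import Pool.Agent.Work.MP_97dc52_al.Res
import Pool.Agent.Work.MP_97dc52_al.ResF

/-!
An infinite sequence of pairwise non-isomorphic, residually nilpotent mapping tori `G_0, G_1, ...` of automorphisms of
the free group of rank three, with homomorphisms from `G_0` to `G_i` inducing isomorphisms of all the nilpotent
quotients, such that for every proper variety of groups the largest quotient of `G_i` in the variety is isomorphic to
that of `G_0` for all large `i`.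
-/

set_option autoImplicit false

namespace Pool.Agent.Results.MP_97dc52_al.QuotientBarrier

open Pool.Agent.Work.MP_97dc52_al

/-- The mapping torus `F_3 ⋊_φ ℤ` of an automorphism `φ` of the free group `F_3` of rank three. -/
abbrev MTorus (φ : MulAut (FreeGroup (Fin 3))) : Type :=
  FreeGroup (Fin 3) ⋊[zpowersHom (MulAut (FreeGroup (Fin 3))) φ] Multiplicative ℤ

/-- The terms of the lower central series: `lcs G 0 = G`, `lcs G (c + 1) = [lcs G c, G]`. -/
abbrev lcs (G : Type) [Group G] (c : ℕ) : Subgroup G := (⊤ : Subgroup G).lowerCentralSeries c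

/-- The verbal subgroup of `G` for the set `S` of laws: the (normal) subgroup generated by the conjugates of the
values `s(g_0, g_1, ...)` of the words `s ∈ S` in `G`. -/
def verbal (S : Set (FreeGroup ℕ)) (G : Type) [Group G] : Subgroup G :=
  Subgroup.normalClosure {g | ∃ s ∈ S, ∃ f : ℕ → G, FreeGroup.lift f s = g}

instance (S : Set (FreeGroup ℕ)) (G : Type) [Group G] : (verbal S G).Normal := Subgroup.normalClosure_normal

theorem result :
    ∃ φ : ℕ → MulAut (FreeGroup (Fin 3)),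
      (∀ i, ∃ w ∈ Subgroup.closure {FreeGroup.of (0 : Fin 3), FreeGroup.of (1 : Fin 3)},
        φ i (FreeGroup.of 0) = FreeGroup.of 0 ∧ φ i (FreeGroup.of 1) = FreeGroup.of 1 ∧
        φ i (FreeGroup.of 2) = w * FreeGroup.of 2 * w⁻¹ ∧ (i = 0 → w = FreeGroup.of 0)) ∧
      (∀ i j, i ≠ j → IsEmpty (MTorus (φ i) ≃* MTorus (φ j))) ∧
      (∀ i, ⨅ c, lcs (MTorus (φ i)) c = ⊥) ∧
      (∀ i, ∃ f : MTorus (φ 0) →* MTorus (φ i), Function.Injective f ∧
        ∀ c, ∃ e : (MTorus (φ 0) ⧸ lcs (MTorus (φ 0)) c) ≃* (MTorus (φ i) ⧸ lcs (MTorus (φ i)) c),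
          ∀ g : MTorus (φ 0), e (QuotientGroup.mk g) = QuotientGroup.mk (f g)) ∧
      (∀ S : Set (FreeGroup ℕ), (∃ s ∈ S, s ≠ 1) → ∃ I, ∀ i ≥ I,
        Nonempty ((MTorus (φ i) ⧸ verbal S (MTorus (φ i))) ≃* (MTorus (φ 0) ⧸ verbal S (MTorus (φ 0))))) := by
  obtain ⟨en, hen⟩ := exists_surjective_nat (FreeGroup ℕ)
  obtain ⟨F, hF, hR, hn⟩ := exists_seq en
  -- the words
  let v : ℕ → F2 := fun i => Nat.casesOn i 1 (fun k => (F k).2.2)
  have hv0 : v 0 = 1 := rfl
  have hvs : ∀ k, v (k + 1) = (F k).2.2 := fun k => rfl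
  have hvc : ∀ i, v i ∈ _root_.commutator F2 := by
    intro i
    cases i with
    | zero => rw [hv0]; exact one_mem _
    | succ k => rw [hvs]; exact WW_comm en _ (hF k).2.1
  let w : ℕ → F2 := fun i => FreeGroup.of 0 * v i
  have hw0 : w 0 = FreeGroup.of 0 := by
    show FreeGroup.of 0 * v 0 = FreeGroup.of 0
    rw [hv0, mul_one]
  have hwc : ∀ i, w i * (FreeGroup.of 0)⁻¹ ∈ _root_.commutator F2 := by
    intro i
    exact (inferInstance : (_root_.commutator F2).Normal).conj_mem _ (hvc i) (FreeGroup.of 0)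
  have hres : ∀ i, ∀ g : MT (phi (w i)), (∀ c, g ∈ gam (MT (phi (w i))) c) → g = 1 := by
    intro i g hg
    exact res_mt (phi (w i)) (phi_comm (w i)) res_F3 g hg
  have hemb : ∀ u : F2, emb u ∈ Subgroup.closure {FreeGroup.of (0 : Fin 3), FreeGroup.of (1 : Fin 3)} := by
    intro u
    have hle : (⊤ : Subgroup F2) ≤
        (Subgroup.closure {FreeGroup.of (0 : Fin 3), FreeGroup.of (1 : Fin 3)}).comap emb := by
      rw [← FreeGroup.closure_range_of, Subgroup.closure_le]
      rintro _ ⟨i, rfl⟩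
      show emb (FreeGroup.of i) ∈ Subgroup.closure {FreeGroup.of (0 : Fin 3), FreeGroup.of (1 : Fin 3)}
      fin_cases i
      · show emb (FreeGroup.of 0) ∈ _
        rw [emb_0]
        exact Subgroup.subset_closure (by simp)
      · show emb (FreeGroup.of 1) ∈ _
        rw [emb_1]
        exact Subgroup.subset_closure (by simp)
    exact hle (Subgroup.mem_top u)
  -- the groups are not isomorphic
  have hlt : ∀ i j, i < j → IsEmpty (MT (phi (w i)) ≃* MT (phi (w j))) := by
    intro i j hij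
    refine ⟨fun e => ?_⟩
    obtain ⟨k, rfl⟩ : ∃ k, j = k + 1 := ⟨j - 1, by omega⟩
    cases i with
    | zero =>
      have h1 := NN_iso (Q := QQ (F k).2.1) e
      have h2 := (hF k).2.2
      have h3 : w (k + 1) = FreeGroup.of 0 * (F k).2.2 := rfl
      rw [hw0, h3] at h1
      omega
    | succ l =>
      have h1 := NN_iso (Q := QQ (F l).2.1) e
      have h2 := (hF l).2.2
      have h3 : w (k + 1) = FreeGroup.of 0 * (F k).2.2 := rfl
      have h4 : w (l + 1) = FreeGroup.of 0 * (F l).2.2 := rfl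
      have h5 : NN (QQ (F l).2.1) (FreeGroup.of 0 * (F k).2.2) = NN (QQ (F l).2.1) (FreeGroup.of 0) :=
        (hR l k (by omega)).2
      rw [h3, h4] at h1
      omega
  -- the isomorphisms of the nilpotent quotients
  have hnil : ∀ i, ∃ f : MT (phi (w 0)) →* MT (phi (w i)),
      ∀ c, ∃ e : (MT (phi (w 0)) ⧸ gam (MT (phi (w 0))) c) ≃* (MT (phi (w i)) ⧸ gam (MT (phi (w i))) c),
        ∀ g : MT (phi (w 0)), e (QuotientGroup.mk g) = QuotientGroup.mk (f g) := by
    intro i
    rw [hw0]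
    exact ⟨AHom (w i), fun c => quot_iso_nilp (hwc i) c⟩
  have hverb : ∀ S : Set (FreeGroup ℕ), (∃ s ∈ S, s ≠ 1) → ∃ I, ∀ i ≥ I,
      Nonempty ((MT (phi (w i)) ⧸ Verb S (MT (phi (w i)))) ≃* (MT (phi (w 0)) ⧸ Verb S (MT (phi (w 0))))) := by
    rintro S ⟨s, hs, hs1⟩
    obtain ⟨k, rfl⟩ := hen s
    refine ⟨k + 2, fun i hi => ?_⟩
    obtain ⟨j, rfl⟩ : ∃ j, i = j + 1 := ⟨i - 1, by omega⟩
    apply quot_iso_verb
    have e : (w (j + 1))⁻¹ * w 0 = (v (j + 1))⁻¹ := by
      show (FreeGroup.of 0 * v (j + 1))⁻¹ * (FreeGroup.of 0 * v 0) = _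
      rw [hv0]
      group
    rw [e]
    apply inv_mem
    rw [hvs]
    have h1 := hn j
    have h2 : (F j).2.2 ∈ Verb {en k} F2 := WW_verb en (show k < (F j).1 by omega) hs1 (hF j).2.1
    exact verb_mono (Set.singleton_subset_iff.mpr hs) F2 h2
  refine ⟨fun i => phi (w i), ?_, ?_, ?_, ?_, ?_⟩
  · intro i
    refine ⟨emb (w i), hemb (w i), ?_, ?_, ?_, ?_⟩
    · exact phiHom_0 (emb (w i))
    · exact phiHom_1 (emb (w i))
    · exact phiHom_2 (emb (w i))
    · rintro rfl
      rw [hw0, emb_0]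
  · intro i j hij
    rcases lt_or_gt_of_ne hij with h | h
    · exact hlt i j h
    · exact ⟨fun e => (hlt j i h).false e.symm⟩
  · intro i
    rw [eq_bot_iff]
    intro g hg
    rw [Subgroup.mem_iInf] at hg
    exact hres i g hg
  · intro i
    obtain ⟨f, hf⟩ := hnil i
    refine ⟨f, ?_, hf⟩
    rw [injective_iff_map_eq_one]
    intro g hg
    apply hres 0 g
    intro c
    obtain ⟨e, he⟩ := hf c
    have h1 := he g
    rw [hg] at h1
    have h2 : e (QuotientGroup.mk g) = 1 := h1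
    have h3 : (QuotientGroup.mk g : MT (phi (w 0)) ⧸ gam (MT (phi (w 0))) c) = 1 := by
      rwa [map_eq_one_iff e e.injective] at h2
    exact (QuotientGroup.eq_one_iff g).mp h3
  · exact hverb

end Pool.Agent.Results.MP_97dc52_al.QuotientBarrier
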